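import Pool.Agent.Work.MP_64ea0f_cs.InterfaceC

set_option autoImplicit false

/-!
Block C_RTC: `RT x y` for all elements of a right-angled Coxeter group of finite rank.
-/

namespace Pool.CS

theorem rtc39_conj (hONE : Stmt_C_ONE) (Λ : Type) [Finite Λ] (G : SimpleGraph Λ) (H : Per G)
    (M : Subgroup (RC G)) (hMn : M.Normal) (hMf : M.FiniteIndex) (a x : RC G)
    (hx : x = a * wp G H.word * a⁻¹) :
    ∃ M' : Subgroup (RC G), M'.Normal ∧ M'.FiniteIndex ∧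
      ∀ (b : List Λ) (c : RC G), c * wp G b * c⁻¹ * x⁻¹ ∈ M' →
        H.k ≤ b.length ∧ (b.length = H.k → ∃ m ∈ M, (m * c) * wp G b * (m * c)⁻¹ = x) := by
  obtain ⟨M', h1, h2, h3⟩ := hONE Λ G H M hMn hMf
  refine ⟨M', h1, h2, fun b c hc => ?_⟩
  have h4 : (a⁻¹ * c) * wp G b * (a⁻¹ * c)⁻¹ * (wp G H.word)⁻¹ ∈ M' := by
    have h5 := h1.conj_mem _ hc a⁻¹
    have e : a⁻¹ * (c * wp G b * c⁻¹ * x⁻¹) * a⁻¹⁻¹ =
        (a⁻¹ * c) * wp G b * (a⁻¹ * c)⁻¹ * (wp G H.word)⁻¹ := by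
      rw [hx]; group
    rwa [e] at h5
  obtain ⟨h5, h6⟩ := h3 b (a⁻¹ * c) h4
  refine ⟨h5, fun hl => ?_⟩
  obtain ⟨m, hm, hm2⟩ := h6 hl
  refine ⟨a * m * a⁻¹, hMn.conj_mem _ hm a, ?_⟩
  rw [hx, ← hm2]
  group

theorem c_rtc_thm : Stmt_C_MIN → Stmt_C_ONE → Stmt_C_RTC := by
  intro hMIN hONE Λ hΛ G x y M hMn hMf
  have hlen : ∀ H : Per G, H.word.length = H.k := fun H => by
    simp [Per.word]
  have huniv : ∀ g : RC G, g ∈ rsub G Set.univ := by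
    intro g
    induction g using rac_induction with
    | h1 => exact Subgroup.one_mem _
    | h2 a c ih =>
      exact Subgroup.mul_mem _ (Subgroup.subset_closure ⟨a, trivial, rfl⟩) ih
  have hnil : wp G ([] : List Λ) = 1 := rfl
  rcases hMIN Λ G Set.univ y (huniv y) with hy | ⟨b, -, Hy, -, hy⟩
  · rcases hMIN Λ G Set.univ x (huniv x) with hx | ⟨a, -, Hx, -, hx⟩
    · refine ⟨M, hMn, hMf, fun c _ => ⟨1, Subgroup.one_mem _, ?_⟩⟩
      rw [hx, hy]; group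
    · obtain ⟨M', h1, h2, h3⟩ := rtc39_conj hONE Λ G Hx M hMn hMf a x hx
      refine ⟨M', h1, h2, fun c hc => ?_⟩
      have h4 := (h3 [] c (by rw [hnil, ← hy]; exact hc)).1
      have h5 := Hx.pos
      simp at h4
      omega
  · obtain ⟨M₂, k1, k2, k3⟩ := rtc39_conj hONE Λ G Hy M hMn hMf b y hy
    rcases hMIN Λ G Set.univ x (huniv x) with hx | ⟨a, -, Hx, -, hx⟩
    · refine ⟨M₂, k1, k2, fun c hc => ?_⟩
      have hy2 : y⁻¹ ∈ M₂ := by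
        have h5 := k1.conj_mem _ (Subgroup.inv_mem _ hc) c⁻¹
        have e : c⁻¹ * (c * y * c⁻¹ * x⁻¹)⁻¹ * c⁻¹⁻¹ = y⁻¹ := by
          rw [hx]; group
        rwa [e] at h5
      have h4 := (k3 [] 1 (by rw [hnil]; simpa using hy2)).1
      have h5 := Hy.pos
      simp at h4
      omega
    · obtain ⟨M₁, h1, h2, h3⟩ := rtc39_conj hONE Λ G Hx M hMn hMf a x hx
      refine ⟨M₁ ⊓ M₂, inferInstance, inferInstance, fun c hc => ?_⟩
      have g1 : (c * b) * wp G Hy.word * (c * b)⁻¹ * x⁻¹ ∈ M₁ := by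
        have e : (c * b) * wp G Hy.word * (c * b)⁻¹ * x⁻¹ = c * y * c⁻¹ * x⁻¹ := by
          rw [hy]; group
        rw [e]
        exact hc.1
      have g2 : (c⁻¹ * a) * wp G Hx.word * (c⁻¹ * a)⁻¹ * y⁻¹ ∈ M₂ := by
        have h5 := k1.conj_mem _ (Subgroup.inv_mem _ hc.2) c⁻¹
        have e : c⁻¹ * (c * y * c⁻¹ * x⁻¹)⁻¹ * c⁻¹⁻¹ =
            (c⁻¹ * a) * wp G Hx.word * (c⁻¹ * a)⁻¹ * y⁻¹ := by
          rw [hx]; group
        rwa [e] at h5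
      obtain ⟨u1, u2⟩ := h3 _ _ g1
      obtain ⟨v1, -⟩ := k3 _ _ g2
      rw [hlen] at u1 u2 v1
      obtain ⟨m, hm, hm2⟩ := u2 (le_antisymm v1 u1)
      refine ⟨m, hm, ?_⟩
      rw [← hm2, hy]
      group

end Pool.CS
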