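import Pool.Agent.Work.MP_64ea0f_cs_helper98.ACT
import Pool.Agent.Work.MP_64ea0f_cs_helper23.C_RUN
import Pool.Agent.Work.MP_64ea0f_cs_helper31.C_FOL
import Pool.Agent.Work.MP_64ea0f_cs_helper31.C_PTH
import Pool.Agent.Work.MP_64ea0f_cs_helper43.C_SYM
import Pool.Agent.Work.MP_64ea0f_cs_helper55.SYC
import Pool.Agent.Work.MP_64ea0f_cs_helper94.C_SYR
import Pool.Agent.Work.MP_64ea0f_cs_helper69.C_LCA
import Pool.Agent.Work.MP_64ea0f_cs_helper24.THR
import Pool.Agent.Work.MP_64ea0f_cs_helper43.C_REC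
import Pool.Agent.Work.MP_64ea0f_cs_helper42.C_FIN
import Pool.Agent.Work.MP_64ea0f_cs_helper53.C_CNT
import Pool.Agent.Work.MP_64ea0f_cs_helper42.C_CN2
import Pool.Agent.Work.MP_64ea0f_cs_helper48.C_WIN
import Pool.Agent.Work.MP_64ea0f_cs_helper48.C_WRD
import Pool.Agent.Work.MP_64ea0f_cs_helper83.C_ADJ
import Pool.Agent.Work.MP_64ea0f_cs_helper74.C_MIN
import Pool.Agent.Work.MP_64ea0f_cs_helper55.NOI
import Pool.Agent.Work.MP_64ea0f_cs_helper83.C_AXA
import Pool.Agent.Work.MP_64ea0f_cs_helper39.ONE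
import Pool.Agent.Work.MP_64ea0f_cs_helper39.RTC
import Pool.Agent.Work.MP_64ea0f_cs_helper93.C_IVT
import Pool.Agent.Work.MP_64ea0f_cs_helper74.C_AXB
import Pool.Agent.Work.MP_64ea0f_cs_helper93.C_AX
import Pool.Agent.Work.MP_64ea0f_cs.InterfaceF

set_option autoImplicit false

/-!
Assembly of part C (right-angled Coxeter groups).
-/

namespace Pool.CS.C

theorem act : Stmt_C_ACT := H98.stmt_C_ACT
theorem run : Stmt_C_RUN := c_run_thm
theorem fol : Stmt_C_FOL := c_fol_thm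
theorem pth : Stmt_C_PTH := c_pth_thm
theorem sym : Stmt_C_SYM := c_sym_thm
theorem syc : Stmt_C_SYC := c_syc_thm
theorem syr : Stmt_C_SYR := c_syr_thm syc
theorem lca : Stmt_C_LCA := C_LCA
theorem thr : Stmt_C_THR := helper24.c_thr
theorem recc : Stmt_C_REC := c_rec_thm thr
theorem fin : Stmt_C_FIN := c_fin_thm act sym syc lca recc
theorem cnt : Stmt_C_CNT := c_cnt_thm thr sym
theorem cn2 : Stmt_C_CN2 := c_cn2_thm thr sym lca
theorem win : Stmt_C_WIN := c_win_thm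
theorem wrd : Stmt_C_WRD := c_wrd_thm
theorem adj : Stmt_C_ADJ := c_adj_thm
theorem min : Stmt_C_MIN := c_min_thm
theorem noi : Stmt_C_NOI := c_noi_thm
theorem axa : Stmt_C_AXA := c_axa_thm act run fol pth sym syr lca cn2 wrd
theorem ivt : Stmt_C_IVT := c_ivt_thm
theorem one : Stmt_C_ONE :=
  c_one_thm act run fol pth sym syc syr lca fin cnt win wrd ivt adj
theorem crtc : Stmt_C_RTC := c_rtc_thm min one
theorem axb : Stmt_C_AXB :=
  c_axb_thm act run fol pth sym syc syr lca fin cnt cn2 win wrd adj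
theorem cax : Stmt_C_AX := c_ax_thm min noi axa axb

/-- `RT x y` for all elements of a right-angled Coxeter group of finite rank. -/
theorem rtc : Stmt_RTC := fun Λ _ G x y => crtc Λ G x y

theorem rtc2 : Stmt_RTC2 := fun Λ _ G x y => crtc Λ G (x ^ 2) (y ^ 2)

/-- The axis results. -/
theorem ax : Stmt_AX := by
  intro Λ _ G I g hg
  obtain ⟨a, ha, w, hw, h1, h2, ⟨L, χ, hL, h3⟩, -⟩ := cax Λ G I g hg
  exact ⟨a, ha, w, hw, h1, h2, L, hL, χ, h3⟩

end Pool.CS.C
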