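import Pool.Agent.Work.MP_64ea0f_cs.InterfaceG4

set_option autoImplicit false

/-! # Block THY (helper39): an irreducible root system is not covered by two hyperplanes -/

namespace Pool.CS.THY39

variable (D : Rd)

theorem decomp (v : D.V) : v = ∑ s, v s • D.e s := by
  funext t
  simp [Rd.e, Finset.sum_apply, Pi.single_apply]

/-- a functional which vanishes on the simple roots of `K` vanishes on `V_K` -/
theorem zero_of {K : Set D.S} {χ : D.V →ₗ[ℝ] ℝ} (h : ∀ s ∈ K, χ (D.e s) = 0) (v : D.V)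
    (hv : D.In K v) : χ v = 0 := by
  rw [decomp D v, map_sum]
  refine Finset.sum_eq_zero fun s _ => ?_
  rw [map_smul]
  by_cases hs : s ∈ K
  · rw [h s hs, smul_zero]
  · rw [hv s hs, zero_smul]

theorem main (hB : Stmt_BAS) (K : Set D.S) (hK : D.Conn K) (χ1 χ2 : D.V →ₗ[ℝ] ℝ)
    (h : ∀ γ ∈ D.Rt, D.In K γ → χ1 γ = 0 ∨ χ2 γ = 0) (h1 : ¬ ∀ v, D.In K v → χ1 v = 0) :
    ∀ v, D.In K v → χ2 v = 0 := by
  obtain ⟨bsym, blin, bes, -, -, -, esR, rhoR, -, -, -, -, -, -, -, -⟩ := hB D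
  let G : Set D.V := {γ | γ ∈ D.Rt ∧ D.In K γ ∧ χ1 γ ≠ 0}
  let U : Submodule ℝ D.V := Submodule.span ℝ G
  have hinE : ∀ s ∈ K, D.In K (D.e s) := by
    intro s hs t ht
    have hne : t ≠ s := fun h => ht (h ▸ hs)
    simp [Rd.e, hne]
  -- a simple root with nonzero `χ1`
  obtain ⟨s0, hs0, hs0χ⟩ : ∃ s ∈ K, χ1 (D.e s) ≠ 0 := by
    by_contra hc
    push Not at hc
    exact h1 fun v hv => zero_of D hc v hv
  have key : ∀ t ∈ K, D.e t ∉ U → ∀ γ ∈ G, D.B γ (D.e t) = 0 := by
    intro t ht htU γ hγ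
    by_contra hne
    have hχt : χ1 (D.e t) = 0 := by
      by_contra h0
      exact htU (Submodule.subset_span ⟨esR t, hinE t ht, h0⟩)
    have hσ : D.ρ (D.σ t) γ = γ - (2 * D.B γ (D.e t)) • D.e t := D.refl t γ
    have hγ' : D.ρ (D.σ t) γ ∈ G := by
      refine ⟨rhoR γ hγ.1 _, ?_, ?_⟩
      · rw [hσ]
        intro s hs
        have h2 := hγ.2.1 s hs
        have h3 := hinE t ht s hs
        simp [h2, h3]
      · rw [hσ, map_sub, map_smul, hχt, smul_zero, sub_zero]
        exact hγ.2.2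
    have h4 : (2 * D.B γ (D.e t)) • D.e t ∈ U := by
      have h5 : (2 * D.B γ (D.e t)) • D.e t = γ - D.ρ (D.σ t) γ := by
        rw [hσ]
        abel
      rw [h5]
      exact U.sub_mem (Submodule.subset_span hγ) (Submodule.subset_span hγ')
    have h6 : (2 * D.B γ (D.e t)) ≠ 0 := mul_ne_zero two_ne_zero hne
    exact htU ((U.smul_mem_iff h6).1 h4)
  have keyU : ∀ t ∈ K, D.e t ∉ U → ∀ u ∈ U, D.B u (D.e t) = 0 := by
    intro t ht htU u hu
    induction hu using Submodule.span_induction with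
    | mem x hx => exact key t ht htU x hx
    | zero =>
      have h7 := blin 0 0 0 0 (D.e t)
      simp only [zero_smul, zero_add, zero_mul] at h7
      exact h7
    | add x y _ _ hx hy =>
      have h7 := blin 1 1 x y (D.e t)
      simp only [one_smul, one_mul] at h7
      rw [h7, hx, hy, add_zero]
    | smul a x _ hx =>
      have h7 := blin a 0 x 0 (D.e t)
      simp only [zero_smul, add_zero, zero_mul] at h7
      rw [h7, hx, mul_zero]
  have hK' : {s | s ∈ K ∧ D.e s ∈ U} = K := by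
    refine hK _ (fun s hs => hs.1) ⟨s0, hs0, Submodule.subset_span ⟨esR s0, hinE s0 hs0, hs0χ⟩⟩ ?_
    rintro s ⟨hs, hsU⟩ t ⟨ht, htU⟩
    rw [← bes s t]
    exact keyU t ht (fun h8 => htU ⟨ht, h8⟩) _ hsU
  refine fun v hv => zero_of D (fun s hs => ?_) v hv
  have hsU : D.e s ∈ U := by
    rw [← hK'] at hs
    exact hs.2
  have hU2 : ∀ u ∈ U, χ2 u = 0 := by
    intro u hu
    induction hu using Submodule.span_induction with
    | mem x hx =>
      rcases h x hx.1 hx.2.1 with h9 | h9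
      · exact absurd h9 hx.2.2
      · exact h9
    | zero => exact map_zero _
    | add x y _ _ hx hy => rw [map_add, hx, hy, add_zero]
    | smul a x _ hx => rw [map_smul, hx, smul_zero]
  exact hU2 _ hsU

end Pool.CS.THY39

namespace Pool.CS

theorem thy_thm : Stmt_BAS → Stmt_THY := by
  intro hB D K hK χ1 χ2 h
  by_cases h1 : ∀ v, D.In K v → χ1 v = 0
  · exact Or.inl h1
  · exact Or.inr (THY39.main D hB K hK χ1 χ2 h h1)

end Pool.CS
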