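import Pool.Agent.Work.MP_64ea0f_cs.InterfaceC

set_option autoImplicit false

/-!
Block C_ONE: the main lemma on right-angled Coxeter groups.
-/

namespace Pool.CS

theorem c_one_thm : Stmt_C_ACT → Stmt_C_RUN → Stmt_C_FOL → Stmt_C_PTH → Stmt_C_SYM →
    Stmt_C_SYC → Stmt_C_SYR → Stmt_C_LCA → Stmt_C_FIN → Stmt_C_CNT → Stmt_C_WIN → Stmt_C_WRD →
    Stmt_C_IVT → Stmt_C_ADJ → Stmt_C_ONE := by
  intro hACT hRUN hFOL hPTH hSYM hSYC hSYR hLCA hFIN hCNT hWIN hWRD hIVT hADJ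
  intro Λ _ G H M₁ hn hf
  obtain ⟨M, hMM₁, hMn, hMf, hMi⟩ := hIVT Λ G M₁ hn hf
  let L : LS G (H.X M) := ⟨H.step M, (hACT Λ G H M).1, (hACT Λ G H M).2⟩
  have hL : ∀ t x, L.τ t x = H.step M t x := fun t x => rfl
  obtain ⟨M', hM'n, hM'f, hM'⟩ := hFIN Λ G H M L hMf hL
  refine ⟨M', hM'n, hM'f, ?_⟩
  intro b x hb
  have okone : ∀ t, Ok M t (1 : RC G ⧸ M) := fun t => ⟨1, Subgroup.one_mem _, rfl⟩
  set x0 : H.X M := (⟨Per.D0, H.cut_D0⟩, 1) with hx0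
  set h : RC G := wp G H.word with hh
  obtain ⟨hSs, hSt⟩ := hSYM Λ G H
  -- the word itself
  obtain ⟨a1, a2⟩ := hFOL Λ G H M L hL _ _ _ (hWRD Λ G H) x0 rfl (fun t _ => okone t)
  rw [← hh] at a1 a2
  set y0 : H.X M := L.r x0 h with hy0
  -- the element `z`
  set z : RC G := x * wp G b * x⁻¹ with hz
  have hm' : h⁻¹ * z ∈ M' := by
    have := hM'n.conj_mem _ hb h⁻¹
    have e : h⁻¹ * (z * h⁻¹) * h⁻¹⁻¹ = h⁻¹ * z := by group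
    rwa [e] at this
  have hz2 : z = h * (h⁻¹ * z) := by group
  obtain ⟨f, hf1, hf2, hf3, hf4⟩ := hM' _ hm' y0
  set y1 : H.X M := L.r y0 (h⁻¹ * z) with hy1
  have hy1' : y1 = L.r x0 z := by
    rw [hy1, hy0, ← L.r_mul, ← hz2]
  -- the state after `x`
  set Q : H.X M := L.r x0 x with hQ
  obtain ⟨b1, b2⟩ := hSYR Λ G H _ hSt M L hL x x0 y0 a1 a2
  obtain ⟨c1, c2⟩ := hSYR Λ G H _ (hSs f hf1) M L hL x y0 y1 hf3 hf4
  rw [b1] at c1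
  rw [b2] at c2
  rw [← hQ] at c1 c2 b1 b2
  have hzx : L.r y1 x = L.r Q (wp G b) := by
    rw [hy1', hQ, ← L.r_mul, ← L.r_mul]
    congr 1
    rw [hz]
    group
  rw [hzx] at c1 c2
  -- flips along `b`
  obtain ⟨p, p1, p2, p3, p4⟩ := hRUN Λ G H M L hL b Q
  rw [c1] at p2
  obtain ⟨q1, q2, q3, q4, q5, q6⟩ := hPTH Λ G H _ _ _ p2
  obtain ⟨r1, r2⟩ := hCNT Λ G H Q.1.1 f q1 hf1 hf2
  have hpl : p.length ≤ b.length := p1.length_le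
  refine ⟨le_trans r1 (le_trans q4 hpl), ?_⟩
  intro hlen
  have hpb : p = b := p1.eq_of_length (le_antisymm hpl (by omega))
  obtain ⟨-, ok⟩ := p4 hpb
  have hshift : H.sh f (H.tr Q.1.1) = H.tr Q.1.1 := r2 (by omega)
  rw [hshift, hpb] at p2
  -- flips along `x`
  obtain ⟨wx, hwx⟩ := wp_surj G x
  obtain ⟨q, s1, s2, s3, -⟩ := hRUN Λ G H M L hL wx x0
  rw [← hwx, ← hQ] at s2 s3
  have pB : H.Path (H.tr Per.D0) q (H.tr Q.1.1) := (hSYC Λ G H _ hSt).1 _ _ _ s2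
  obtain ⟨m1, w1⟩ := hWIN Λ G H _ _ _ (hWRD Λ G H)
  obtain ⟨m2, w2⟩ := hWIN Λ G H _ _ _ pB
  obtain ⟨m3, w3⟩ := hWIN Λ G H _ _ _ s2
  obtain ⟨m4, w4⟩ := hWIN Λ G H _ _ _ p2
  have hhq : h * wp G q = wp G q * wp G b := by
    have e1 := w1 (m1 + m2 + m3 + m4) (by omega)
    have e2 := w2 (m1 + m2 + m3 + m4) (by omega)
    have e3 := w3 (m1 + m2 + m3 + m4) (by omega)
    have e4 := w4 (m1 + m2 + m3 + m4) (by omega)
    rw [← e1, mul_assoc] at e2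
    rw [← e3, mul_assoc, ← e2] at e4
    exact (mul_left_cancel e4).symm
  obtain ⟨x', -, hx', hcom⟩ := hADJ Λ G M hMi b Q.2 ok
  have hcomb := hcom b (fun t ht => ht)
  refine ⟨wp G q * x'⁻¹ * x⁻¹, ?_, ?_⟩
  · apply hMM₁
    rw [← QuotientGroup.eq_one_iff]
    have e1 : ((wp G q * x'⁻¹ * x⁻¹ : RC G) : RC G ⧸ M) =
        (QuotientGroup.mk (wp G q) : RC G ⧸ M) * (QuotientGroup.mk x')⁻¹ * (QuotientGroup.mk x)⁻¹ := rfl
    rw [e1, hx', s3]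
    simp [hx0]
  · have e1 : wp G q * x'⁻¹ * x⁻¹ * x = wp G q * x'⁻¹ := by group
    rw [e1]
    have e2 : x'⁻¹ * wp G b * x' = wp G b := by
      rw [mul_assoc, ← hcomb]; group
    calc wp G q * x'⁻¹ * wp G b * (wp G q * x'⁻¹)⁻¹
        = wp G q * (x'⁻¹ * wp G b * x') * (wp G q)⁻¹ := by group
      _ = wp G q * wp G b * (wp G q)⁻¹ := by rw [e2]
      _ = h := by rw [← hhq]; group

end Pool.CS
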